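import Mathlib

set_option autoImplicit false

namespace Pool.Agent.Results.MP_a1720d_lc.Computable

/-- Distinct palindromic factors (the empty word included). -/
def Pal (w : List ℕ) : Set (List ℕ) := {p | p <:+: w ∧ p.reverse = p}

/-- The defect of a finite word. -/
noncomputable def defect (w : List ℕ) : ℕ := w.length + 1 - (Pal w).ncard

/-- Right-infinite, left-infinite, two-way infinite. -/
inductive Kind | right | left | both

def dom : Kind → Set ℤ
  | .right => {i | 0 ≤ i}
  | .left => {i | i < 0}
  | .both => Set.univ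

def seg (z : ℤ → ℕ) (i : ℤ) (n : ℕ) : List ℕ := (List.range n).map fun j : ℕ => z (i + j)

/-- `u` is a finite factor of the infinite word `z` indexed by `dom k`. -/
def IsFactor (k : Kind) (z : ℤ → ℕ) (u : List ℕ) : Prop :=
  ∃ i : ℤ, (∀ j : ℕ, j < u.length → i + j ∈ dom k) ∧ u = seg z i u.length

noncomputable def infDefect (k : Kind) (z : ℤ → ℕ) : ℕ∞ :=
  ⨆ (u : List ℕ) (_ : IsFactor k z u), (defect u : ℕ∞)

/-- The infinite defect of a finite word. -/
noncomputable def Dinf (w : List ℕ) : ℕ∞ :=
  ⨅ (k : Kind) (z : ℤ → ℕ) (_ : IsFactor k z w ∧ ∀ i ∈ dom k, z i ∈ w), infDefect k z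

def facs (w : List ℕ) : List (List ℕ) :=
  (List.range (w.length + 1)).flatMap fun i =>
    (List.range (w.length + 1)).map fun j => (w.drop i).take j

lemma mem_facs (w p : List ℕ) : p ∈ facs w ↔ p <:+: w := by
  simp only [facs, List.mem_flatMap, List.mem_map, List.mem_range]
  constructor
  · rintro ⟨i, _, j, _, rfl⟩
    exact (List.take_prefix _ _).isInfix.trans (List.drop_suffix _ _).isInfix
  · rintro ⟨x, y, rfl⟩
    exact ⟨x.length, by simp, p.length, by simp; omega, by simp⟩

lemma pal_fin (w : List ℕ) : (Pal w).Finite :=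
  (List.finite_toSet (facs w)).subset fun p hp => (mem_facs w p).2 hp.1

lemma pal_mono {u w : List ℕ} (h : u <:+: w) : Pal u ⊆ Pal w := fun _ hp => ⟨hp.1.trans h, hp.2⟩

lemma new_aux {w p q : List ℕ} {a : ℕ} (hp : p <:+ w ++ [a]) (hq : q <:+ w ++ [a])
    (hp1 : p.reverse = p) (hq1 : q.reverse = q) (hn : ¬ p <:+: w) (hl : p.length ≤ q.length) :
    p = q := by
  have h1 : p <:+ q := List.suffix_of_suffix_length_le hp hq hl
  by_contra hne
  have h2 : p <+: q := by rw [← hp1, ← hq1]; exact List.reverse_prefix.2 h1
  have h3 : p.length < q.length := lt_of_le_of_ne hl fun e => hne (h1.eq_of_length e)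
  obtain ⟨t, ht⟩ := hq
  obtain ⟨s, rfl⟩ := h2
  have h4 : t ++ p <+: w ++ [a] := ⟨s, by rw [← ht, List.append_assoc]⟩
  have h5 := congrArg List.length ht
  simp only [List.length_append, List.length_singleton] at h5 h3
  have h6 : t ++ p <+: w := List.prefix_of_prefix_length_le h4 (List.prefix_append _ _)
    (by simp only [List.length_append]; omega)
  exact hn ((List.suffix_append t p).isInfix.trans h6.isInfix)

lemma card_step (w : List ℕ) (a : ℕ) : (Pal (w ++ [a])).ncard ≤ (Pal w).ncard + 1 := by
  have h1 : (Pal (w ++ [a]) \ Pal w).ncard ≤ 1 := by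
    rw [Set.ncard_le_one ((pal_fin _).subset Set.sdiff_subset)]
    rintro p ⟨⟨hp1, hp2⟩, hp3⟩ q ⟨⟨hq1, hq2⟩, hq3⟩
    have hp4 : ¬ p <:+: w := fun h => hp3 ⟨h, hp2⟩
    have hq4 : ¬ q <:+: w := fun h => hq3 ⟨h, hq2⟩
    have hp5 := (List.infix_concat_iff.1 hp1).resolve_right hp4
    have hq5 := (List.infix_concat_iff.1 hq1).resolve_right hq4
    rcases le_total p.length q.length with h | h
    · exact new_aux hp5 hq5 hp2 hq2 hp4 h
    · exact (new_aux hq5 hp5 hq2 hp2 hq4 h).symm
  have h2 := Set.ncard_sdiff_add_ncard_of_subset (pal_mono (List.prefix_append w [a]).isInfix)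
    (pal_fin _)
  omega

lemma card_le (w : List ℕ) : (Pal w).ncard ≤ w.length + 1 := by
  induction w using List.reverseRecOn with
  | nil =>
    have : Pal [] = {[]} := by ext p; simp [Pal]; rintro rfl; rfl
    simp [this]
  | append_singleton w a ih =>
    have := card_step w a
    simp only [List.length_append, List.length_singleton]
    omega

lemma defect_step (w : List ℕ) (a : ℕ) : defect w ≤ defect (w ++ [a]) := by
  have := card_step w a
  simp only [defect, List.length_append, List.length_singleton]
  omega

lemma defect_new {w p : List ℕ} {a : ℕ} (h1 : p <:+ w ++ [a]) (h2 : p.reverse = p)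
    (h3 : ¬ p <:+: w) : defect (w ++ [a]) ≤ defect w := by
  have : (Pal w).ncard < (Pal (w ++ [a])).ncard :=
    Set.ncard_lt_ncard ⟨pal_mono (List.prefix_append w [a]).isInfix,
      fun h => h3 (h ⟨h1.isInfix, h2⟩).1⟩ (pal_fin _)
  simp only [defect, List.length_append, List.length_singleton]
  omega

lemma exists_new {w : List ℕ} {a : ℕ} (h : defect (w ++ [a]) ≤ defect w) :
    ∃ p, p <:+ w ++ [a] ∧ p.reverse = p ∧ ¬ p <:+: w := by
  by_contra hc
  have h1 : Pal (w ++ [a]) ⊆ Pal w := by
    rintro p ⟨hp1, hp2⟩
    by_contra hp3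
    have hp4 : ¬ p <:+: w := fun h => hp3 ⟨h, hp2⟩
    exact hc ⟨p, (List.infix_concat_iff.1 hp1).resolve_right hp4, hp2, hp4⟩
  have h2 := Set.ncard_le_ncard h1 (pal_fin _)
  have h3 := card_le w
  simp only [defect, List.length_append, List.length_singleton] at h
  omega

lemma defect_pre (u v : List ℕ) : defect u ≤ defect (u ++ v) := by
  induction v using List.reverseRecOn with
  | nil => simp
  | append_singleton v a ih => rw [← List.append_assoc]; exact ih.trans (defect_step _ _)

lemma defect_rev (w : List ℕ) : defect w.reverse = defect w := by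
  have : Pal w.reverse = Pal w := by
    ext p
    simp only [Pal, Set.mem_ofPred_eq]
    constructor
    · rintro ⟨h1, h2⟩
      exact ⟨List.reverse_infix.1 (by rwa [h2]), h2⟩
    · rintro ⟨h1, h2⟩
      exact ⟨by rw [← h2]; exact List.reverse_infix.2 h1, h2⟩
  simp [defect, this]

lemma defect_inf {u w : List ℕ} (h : u <:+: w) : defect u ≤ defect w := by
  obtain ⟨x, y, rfl⟩ := h
  refine le_trans ?_ (defect_pre _ y)
  rw [← defect_rev u, ← defect_rev (x ++ u), List.reverse_append]
  exact defect_pre _ _

lemma closure (p : List ℕ) (hp : p.reverse = p) : ∀ (s t : List ℕ),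
    (∀ x y, x ++ p ++ y = t ++ s ++ p → y = []) →
    defect (t ++ s ++ p ++ s.reverse) ≤ defect (t ++ s ++ p)
  | [], t, _ => by simp
  | b :: s, t, h => by
      have e : t ++ [b] ++ s = t ++ b :: s := by simp
      have ih := closure p hp s (t ++ [b]) (by rw [e]; exact h)
      rw [e] at ih
      refine le_trans ?_ ih
      rw [List.reverse_cons, ← List.append_assoc]
      refine defect_new (p := b :: s ++ p ++ s.reverse ++ [b]) ⟨t, by simp⟩ (by simp [hp]) ?_
      rintro ⟨x, y, hxy⟩
      have h1 := congrArg List.length hxy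
      simp only [List.length_append, List.length_cons, List.length_reverse,
        List.length_nil] at h1
      have h2 : x ++ b :: s ++ p <+: t ++ b :: s ++ p ++ s.reverse :=
        ⟨s.reverse ++ [b] ++ y, by rw [← hxy]; simp⟩
      obtain ⟨y', hy'⟩ := List.prefix_of_prefix_length_le h2 (List.prefix_append _ _)
        (by simp only [List.length_append, List.length_cons]; omega)
      have h3 := h _ _ hy'
      subst h3
      have h4 := congrArg List.length hy'
      simp only [List.length_append, List.length_cons, List.length_nil] at h4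
      omega

lemma rep_inf (a m : ℕ) : List.replicate m a <:+: List.replicate (m + 1) a :=
  ⟨[a], [], by simp [List.replicate_succ]⟩

lemma run (x : List ℕ) (a m : ℕ) (h : ¬ List.replicate (m + 1) a <:+: x ++ List.replicate m a) :
    ∀ j, defect (x ++ List.replicate (m + j) a) ≤ defect (x ++ List.replicate m a) ∧
      ¬ List.replicate (m + j + 1) a <:+: x ++ List.replicate (m + j) a
  | 0 => ⟨le_rfl, h⟩
  | j + 1 => by
      obtain ⟨h1, h2⟩ := run x a m h j
      have e : x ++ List.replicate (m + (j + 1)) a = x ++ List.replicate (m + j) a ++ [a] := by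
        rw [← add_assoc, List.replicate_succ', List.append_assoc]
      rw [e]
      refine ⟨le_trans (defect_new (p := List.replicate (m + j + 1) a) ?_ (by simp) h2) h1, ?_⟩
      · rw [List.append_assoc, ← List.replicate_succ']
        exact List.suffix_append _ _
      · intro h3
        rcases List.infix_concat_iff.1 h3 with ⟨t, ht⟩ | h4
        · rw [List.replicate_succ', ← List.append_assoc] at ht
          have h5 := List.append_cancel_right ht
          have h6 : List.replicate (m + j + 1) a <:+ x ++ List.replicate (m + j) a := ⟨t, h5⟩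
          exact h2 h6.isInfix
        · exact h2 ((rep_inf a _).trans h4)

lemma pal_run (U w : List ℕ) (a : ℕ) (hU : U.reverse = U) (hw : w <+: U)
    (hl : 2 * w.length ≤ U.length) :
    ∃ X, w <+: X ∧ X <+: U ∧ ∀ j, defect (X ++ List.replicate j a) ≤ defect U := by
  classical
  have hex : ∃ m, ¬ List.replicate (m + 1) a <:+: U := ⟨U.length, fun h => by
    have := h.length_le
    simp at this⟩
  have h1 := Nat.find_spec hex
  set m := Nat.find hex with hm
  have h2 : List.replicate m a <:+: U := by
    rcases Nat.eq_zero_or_pos m with h | h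
    · rw [h]; exact List.nil_infix
    · have := Nat.find_min hex (m := m - 1) (by omega)
      rw [show m - 1 + 1 = m by omega] at this
      exact not_not.1 this
  have h3 : ∃ x y, x ++ List.replicate m a ++ y = U ∧ w.length ≤ x.length + m := by
    obtain ⟨x, y, hxy⟩ := h2
    have hl2 := congrArg List.length hxy
    simp only [List.length_append, List.length_replicate] at hl2
    by_cases hc : w.length ≤ x.length + m
    · exact ⟨x, y, hxy, hc⟩
    · refine ⟨y.reverse, x.reverse, ?_, by simp only [List.length_reverse]; omega⟩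
      rw [← hU, ← hxy]
      simp
  obtain ⟨x, y, hxy, hc⟩ := h3
  have h4 : x ++ List.replicate m a <+: U := ⟨y, hxy⟩
  refine ⟨x ++ List.replicate m a, List.prefix_of_prefix_length_le hw h4 (by simpa using hc), h4,
    fun j => ?_⟩
  have h5 := (run x a m (fun h => h1 (h.trans h4.isInfix)) j).1
  rw [List.append_assoc, ← List.replicate_add]
  exact h5.trans (defect_inf h4.isInfix)

lemma main (w v : List ℕ) (a k : ℕ) (hv : ∀ b ∈ v, b ∈ w) (hl : w.length + k + 1 ≤ v.length)
    (hk : defect (w ++ v) ≤ k) :
    ∃ X, w <+: X ∧ (∀ b ∈ X, b ∈ w) ∧ ∀ j, defect (X ++ List.replicate j a) ≤ k := by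
  have hpre : ∀ i, defect (w ++ v.take i) ≤ k := fun i =>
    le_trans (defect_inf ((List.prefix_append_right_inj w).2 (List.take_prefix i v)).isInfix) hk
  have hex : ∃ j < k + 1, defect (w ++ v.take (w.length + j + 1)) ≤
      defect (w ++ v.take (w.length + j)) := by
    by_contra hc
    push Not at hc
    have : ∀ j ≤ k + 1, j ≤ defect (w ++ v.take (w.length + j)) := by
      intro j
      induction j with
      | zero => intro _; omega
      | succ j ih =>
        intro hj
        have h1 := ih (by omega)
        have h2 := hc j (by omega)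
        rw [← add_assoc]
        omega
    have h1 := this (k + 1) le_rfl
    have h2 := hpre (w.length + (k + 1))
    omega
  obtain ⟨j, hj, h1⟩ := hex
  have hi : w.length + j < v.length := by omega
  have e : w ++ v.take (w.length + j + 1) = w ++ v.take (w.length + j) ++ [v[w.length + j]] := by
    rw [List.take_succ_eq_append_getElem hi, List.append_assoc]
  have h2 := hpre (w.length + j + 1)
  have hmem : ∀ b ∈ w ++ v.take (w.length + j + 1), b ∈ w := by
    intro b hb
    rcases List.mem_append.1 hb with h | h
    · exact h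
    · exact hv b (List.mem_of_mem_take h)
  have hlen : (w ++ v.take (w.length + j + 1)).length = w.length + (w.length + j + 1) := by
    simp only [List.length_append, List.length_take]; omega
  have hpw : w <+: w ++ v.take (w.length + j + 1) := List.prefix_append _ _
  rw [e] at h1 h2 hmem hlen hpw
  obtain ⟨p, ⟨s, hs⟩, h4, h5⟩ := exists_new h1
  have h6 := closure p h4 s [] (by
    intro x y hxy
    rw [List.nil_append, hs] at hxy
    by_contra hy
    obtain ⟨y', c, rfl⟩ := List.eq_nil_or_concat' y |>.resolve_left hy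
    rw [← List.append_assoc] at hxy
    exact h5 ⟨x, y', (List.append_inj' hxy rfl).1⟩)
  rw [List.nil_append] at h6
  rw [← hs] at h2 hmem hlen hpw
  obtain ⟨X, a1, a2, a3⟩ := pal_run (s ++ p ++ s.reverse) w a (by simp [h4])
    (hpw.trans (List.prefix_append _ _)) (by rw [List.length_append, hlen]; omega)
  refine ⟨X, a1, fun b hb => hmem b ?_, fun j => (a3 j).trans (h6.trans h2)⟩
  have := a2.subset hb
  simp only [List.mem_append, List.mem_reverse] at this ⊢
  tauto

lemma seg_len (z : ℤ → ℕ) (i : ℤ) (n : ℕ) : (seg z i n).length = n := by simp [seg]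

lemma seg_add (z : ℤ → ℕ) (i : ℤ) (n m : ℕ) : seg z i (n + m) = seg z i n ++ seg z (i + n) m := by
  simp only [seg, List.range_add, List.map_append, List.map_map]
  congr 1
  refine List.map_congr_left fun j _ => ?_
  simp [add_assoc]

lemma seg_rev (z : ℤ → ℕ) (i : ℤ) (n : ℕ) :
    seg (fun t => z (-1 - t)) i n = (seg z (-i - n) n).reverse := by
  apply List.ext_getElem
  · simp [seg]
  · intro j h1 h2
    simp only [seg, List.length_map, List.length_range] at h1
    simp only [seg, List.getElem_map, List.getElem_range, List.getElem_reverse, List.length_map,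
      List.length_range]
    congr 1
    omega

def zz (X : List ℕ) (a : ℕ) (i : ℤ) : ℕ := X.getD i.toNat a

lemma seg_zz (X : List ℕ) (a j : ℕ) : seg (zz X a) 0 (X.length + j) = X ++ List.replicate j a := by
  apply List.ext_getElem
  · simp [seg]
  · intro t h1 h2
    simp only [seg, zz, List.getElem_map, List.getElem_range, zero_add, Int.toNat_natCast]
    by_cases h : t < X.length
    · rw [List.getElem_append_left h, List.getD_eq_getElem _ _ h]
    · rw [List.getElem_append_right (by omega), List.getD_eq_default _ _ (by omega)]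
      simp

lemma zz_bound (X : List ℕ) (a k : ℕ) (h : ∀ j, defect (X ++ List.replicate j a) ≤ k) (i : ℤ)
    (n : ℕ) (hi : 0 < n → 0 ≤ i) : defect (seg (zz X a) i n) ≤ k := by
  rcases Nat.eq_zero_or_pos n with rfl | hn
  · exact le_trans (defect_inf List.nil_infix) (h 0)
  · obtain ⟨i, rfl⟩ := Int.eq_ofNat_of_zero_le (hi hn)
    refine le_trans (defect_inf ?_) (h (i + n))
    rw [← seg_zz, show X.length + (i + n) = i + n + X.length by omega, seg_add, seg_add, zero_add]
    exact List.infix_append _ _ _

lemma zz_pre (X w : List ℕ) (a : ℕ) (h : w <+: X) : w = seg (zz X a) 0 w.length := by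
  obtain ⟨y, rfl⟩ := h
  have h1 := seg_zz (w ++ y) a 0
  rw [List.length_append, add_zero, seg_add, List.replicate_zero, List.append_nil] at h1
  exact (List.append_inj h1 (seg_len _ _ _)).1.symm

lemma zz_mem (X w : List ℕ) (a : ℕ) (ha : a ∈ w) (h : ∀ b ∈ X, b ∈ w) (i : ℤ) : zz X a i ∈ w := by
  unfold zz
  by_cases hi : i.toNat < X.length
  · rw [List.getD_eq_getElem _ _ hi]; exact h _ (List.getElem_mem _)
  · rw [List.getD_eq_default _ _ (by omega)]; exact ha

def dd (L : List (List ℕ)) : List (List ℕ) :=
  L.foldr (fun a acc => if ∃ b ∈ acc, b = a then acc else a :: acc) []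

lemma dd_spec : ∀ L : List (List ℕ), (dd L).Nodup ∧ ∀ x, x ∈ dd L ↔ x ∈ L
  | [] => by simp [dd]
  | a :: L => by
      obtain ⟨h1, h2⟩ := dd_spec L
      have e : dd (a :: L) = if ∃ b ∈ dd L, b = a then dd L else a :: dd L := rfl
      rw [e]
      split_ifs with h
      · obtain ⟨b, hb, rfl⟩ := h
        refine ⟨h1, fun x => ?_⟩
        rw [List.mem_cons, ← h2]
        exact ⟨Or.inr, fun h => h.elim (fun e => e ▸ hb) id⟩
      · exact ⟨List.nodup_cons.2 ⟨fun hh => h ⟨a, hh, rfl⟩, h1⟩, fun x => by simp [h2]⟩

def dC (w : List ℕ) : ℕ := w.length + 1 - (dd ((facs w).filter fun p => p.reverse = p)).length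

lemma dC_eq (w : List ℕ) : dC w = defect w := by
  obtain ⟨h1, h2⟩ := dd_spec ((facs w).filter fun p => p.reverse = p)
  have : Pal w = ↑(dd ((facs w).filter fun p => p.reverse = p)).toFinset := by
    ext p
    simp [Pal, h2, mem_facs]
  rw [dC, defect, this, Set.ncard_coe_finset, List.toFinset_card_of_nodup h1]

def exts (w : List ℕ) (n : ℕ) : List (List ℕ) :=
  (fun L : List (List ℕ) => L.flatMap fun v => w.map fun a => a :: v)^[n] [[]]

lemma mem_exts (w : List ℕ) : ∀ (n : ℕ) (v : List ℕ),
    v ∈ exts w n ↔ v.length = n ∧ ∀ b ∈ v, b ∈ w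
  | 0, v => by
      simp only [exts, Function.iterate_zero, id, List.mem_singleton, List.length_eq_zero_iff]
      exact ⟨fun h => ⟨h, by simp [h]⟩, fun h => h.1⟩
  | n + 1, v => by
      have e : exts w (n + 1) = (exts w n).flatMap fun v => w.map fun a => a :: v := by
        simp only [exts, Function.iterate_succ_apply']
      rw [e]
      simp only [List.mem_flatMap, List.mem_map, mem_exts w n]
      constructor
      · rintro ⟨u, ⟨h1, h2⟩, a, ha, rfl⟩
        exact ⟨by simp [h1], by simpa using ⟨ha, h2⟩⟩
      · rintro ⟨h1, h2⟩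
        cases v with
        | nil => simp at h1
        | cons a u =>
          exact ⟨u, ⟨by simpa using h1, fun b hb => h2 b (by simp [hb])⟩, a, h2 a (by simp), rfl⟩

def g (w : List ℕ) : ℕ :=
  ((exts w (w.length + w.length + 1)).map fun v => dC (w ++ v)).foldr min w.length

lemma fold_min (d : ℕ) : ∀ L : List ℕ, (∀ x ∈ L, L.foldr min d ≤ x) ∧ L.foldr min d ≤ d ∧
    (L.foldr min d = d ∨ L.foldr min d ∈ L)
  | [] => by simp
  | a :: L => by
      obtain ⟨h1, h2, h3⟩ := fold_min d L
      simp only [List.foldr_cons, List.mem_cons]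
      refine ⟨?_, by omega, ?_⟩
      · rintro x (rfl | hx)
        · omega
        · have := h1 x hx
          omega
      · rcases le_total a (L.foldr min d) with h | h
        · rw [min_eq_left h]; tauto
        · rw [min_eq_right h]; tauto

lemma g_le (w v : List ℕ) (h1 : v.length = w.length + w.length + 1) (h2 : ∀ b ∈ v, b ∈ w) :
    g w ≤ defect (w ++ v) :=
  (fold_min _ _).1 _ (List.mem_map.2 ⟨v, (mem_exts _ _ _).2 ⟨h1, h2⟩, dC_eq _⟩)

lemma rep_bound (w : List ℕ) (a j : ℕ) : defect (w ++ List.replicate j a) ≤ w.length := by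
  have h1 : (fun i => List.replicate i a) '' Set.Iic j ⊆ Pal (w ++ List.replicate j a) := by
    rintro _ ⟨i, hi, rfl⟩
    refine ⟨⟨w, List.replicate (j - i) a, ?_⟩, by simp⟩
    rw [List.append_assoc, ← List.replicate_add, show i + (j - i) = j by
      have : i ≤ j := hi
      omega]
  have h2 := Set.ncard_le_ncard h1 (pal_fin _)
  rw [Set.ncard_image_of_injective _ (fun x y h => by simpa using congrArg List.length h)] at h2
  have h3 : (Set.Iic j).ncard = j + 1 := by simp
  simp only [defect, List.length_append, List.length_replicate]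
  omega

lemma g_att (w : List ℕ) (a : ℕ) :
    ∃ X, w <+: X ∧ (∀ b ∈ X, b ∈ w) ∧ ∀ j, defect (X ++ List.replicate j a) ≤ g w := by
  obtain ⟨-, h2, h3 | h3⟩ := fold_min w.length
    ((exts w (w.length + w.length + 1)).map fun v => dC (w ++ v))
  · exact ⟨w, List.prefix_refl _, fun _ h => h, fun j => (rep_bound w a j).trans h3.ge⟩
  · obtain ⟨v, h4, h5⟩ := List.mem_map.1 h3
    obtain ⟨h6, h7⟩ := (mem_exts _ _ _).1 h4
    have h8 : g w ≤ w.length := h2
    exact main w v a (g w) h7 (by omega) (by rw [← dC_eq]; exact h5.le)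

lemma prim_dC : Primrec dC := by
  have h1 : Primrec facs := by
    unfold facs
    refine Primrec.list_flatMap (Primrec.list_range.comp (Primrec.succ.comp Primrec.list_length)) ?_
    refine Primrec.list_map
      (Primrec.list_range.comp (Primrec.succ.comp (Primrec.list_length.comp Primrec.fst))) ?_
    exact Primrec.list_take.comp Primrec.snd (Primrec.list_drop.comp
      (Primrec.snd.comp Primrec.fst) (Primrec.fst.comp Primrec.fst))
  have h2 : Primrec dd := by
    unfold dd
    refine Primrec.list_foldr (h := fun _ (q : List ℕ × List (List ℕ)) =>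
      if ∃ b ∈ q.2, b = q.1 then q.2 else q.1 :: q.2) Primrec.id (Primrec.const []) ?_
    refine Primrec.ite ?_ (Primrec.snd.comp Primrec.snd)
      (Primrec.list_cons.comp (Primrec.fst.comp Primrec.snd) (Primrec.snd.comp Primrec.snd))
    exact (PrimrecRel.exists_mem_list Primrec.eq).comp (Primrec.snd.comp Primrec.snd)
      (Primrec.fst.comp Primrec.snd)
  have h3 : PrimrecPred fun p : List ℕ => p.reverse = p :=
    Primrec.eq.comp Primrec.list_reverse Primrec.id
  exact Primrec.nat_sub.comp (Primrec.succ.comp Primrec.list_length)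
    (Primrec.list_length.comp (h2.comp ((Primrec.listFilter h3).comp h1)))

lemma prim_g : Primrec g := by
  have h1 : Primrec fun w : List ℕ => exts w (w.length + w.length + 1) := by
    unfold exts
    refine Primrec.nat_iterate (h := fun (w : List ℕ) (L : List (List ℕ)) =>
      L.flatMap fun v => w.map fun a => a :: v)
      (Primrec.succ.comp (Primrec.nat_add.comp Primrec.list_length Primrec.list_length))
      (Primrec.const [[]]) ?_
    refine Primrec.list_flatMap Primrec.snd ?_
    refine Primrec.list_map (Primrec.fst.comp Primrec.fst) ?_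
    exact Primrec.list_cons.comp Primrec.snd (Primrec.snd.comp Primrec.fst)
  unfold g
  refine Primrec.list_foldr (h := fun _ (q : ℕ × ℕ) => min q.1 q.2)
    (Primrec.list_map h1 (prim_dC.comp (Primrec.list_append.comp Primrec.fst Primrec.snd)))
    Primrec.list_length ?_
  exact Primrec.nat_min.comp (Primrec.fst.comp Primrec.snd) (Primrec.snd.comp Primrec.snd)

lemma seg_mem (k : Kind) (z : ℤ → ℕ) (w : List ℕ) (h : ∀ i ∈ dom k, z i ∈ w) (i : ℤ) (n : ℕ)
    (hd : ∀ j : ℕ, j < n → i + j ∈ dom k) : ∀ b ∈ seg z i n, b ∈ w := by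
  intro b hb
  obtain ⟨j, hj, rfl⟩ := List.mem_map.1 hb
  exact h _ (hd j (List.mem_range.1 hj))

lemma le_inf {k : Kind} {z : ℤ → ℕ} {u : List ℕ} (h : IsFactor k z u) :
    (defect u : ℕ∞) ≤ infDefect k z :=
  le_iSup₂_of_le (f := fun (u : List ℕ) (_ : IsFactor k z u) => (defect u : ℕ∞)) u h le_rfl

theorem result : ∃ f : List ℕ → ℕ, Computable f ∧ ∀ w : List ℕ, w ≠ [] → Dinf w = f w := by
  refine ⟨fun w => min (g w) (g w.reverse),
    (Primrec.nat_min.comp prim_g (prim_g.comp Primrec.list_reverse)).to_comp, fun w hw => ?_⟩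
  have hpos : 0 < w.length := List.length_pos_iff.2 hw
  obtain ⟨a, ha⟩ := List.exists_mem_of_ne_nil w hw
  apply le_antisymm
  · have hm : ∀ (D : ℕ∞) (x y : ℕ), (D ≤ x ∧ D ≤ y) → D ≤ (min x y : ℕ) := by
      intro D x y h
      rcases le_total x y with e | e
      · rw [min_eq_left e]; exact h.1
      · rw [min_eq_right e]; exact h.2
    apply hm
    constructor
    · obtain ⟨X, h1, h2, h3⟩ := g_att w a
      refine iInf_le_of_le Kind.right (iInf_le_of_le (zz X a) (iInf_le_of_le
        ⟨⟨0, fun j _ => by simp [dom], zz_pre X w a h1⟩, fun i _ => zz_mem X w a ha h2 i⟩ ?_))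
      refine iSup₂_le ?_
      rintro u ⟨i, h4, h5⟩
      rw [h5]
      exact_mod_cast zz_bound X a _ h3 i _ fun h => by simpa [dom] using h4 0 h
    · obtain ⟨X, h1, h2, h3⟩ := g_att w.reverse a
      refine iInf_le_of_le Kind.left (iInf_le_of_le (fun t => zz X a (-1 - t)) (iInf_le_of_le
        ⟨⟨-w.length, fun j hj => by simp only [dom, Set.mem_ofPred_eq]; omega, ?_⟩,
          fun i _ => zz_mem X w a ha (fun b hb => by simpa using h2 b hb) _⟩ ?_))
      · have := zz_pre X _ a h1
        rw [seg_rev, show -(-(w.length : ℤ)) - w.length = 0 by ring, ← List.length_reverse,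
          ← this, List.reverse_reverse]
      · refine iSup₂_le ?_
        rintro u ⟨i, h4, h5⟩
        rw [h5, seg_rev, defect_rev]
        refine Nat.cast_le.2 (zz_bound X a _ h3 _ _ fun h => ?_)
        have := h4 (u.length - 1) (by omega)
        simp only [dom, Set.mem_ofPred_eq] at this
        omega
  · refine le_iInf fun k => le_iInf fun z => le_iInf ?_
    rintro ⟨⟨i, h1, h2⟩, h3⟩
    have h0 := h1 0 hpos
    have hl := h1 (w.length - 1) (by omega)
    set N := w.length + w.length + 1 with hN
    by_cases hk : k = Kind.left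
    · subst hk
      simp only [dom, Set.mem_ofPred_eq] at hl
      have hd : ∀ j : ℕ, j < N + w.length → i - N + j ∈ dom Kind.left := fun j hj => by
        simp only [dom, Set.mem_ofPred_eq]; omega
      have h4 := le_inf (k := Kind.left) (z := z) (u := seg z (i - N) (N + w.length))
        ⟨i - N, by rw [seg_len]; exact hd, by rw [seg_len]⟩
      refine le_trans (Nat.cast_le.2 ((min_le_right _ _).trans ?_)) h4
      rw [seg_add, sub_add_cancel, ← h2, ← defect_rev, List.reverse_append]
      refine g_le _ _ (by simp [seg_len, hN]) fun b hb => ?_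
      rw [List.mem_reverse] at hb ⊢
      exact seg_mem _ z w h3 _ _ (fun j hj => hd j (by omega)) b hb
    · have hd : ∀ j : ℕ, i + j ∈ dom k := fun j => by
        cases k
        · simp only [dom, Set.mem_ofPred_eq] at h0 ⊢; omega
        · exact absurd rfl hk
        · trivial
      have h4 := le_inf (k := k) (z := z) (u := seg z i (w.length + N))
        ⟨i, fun j _ => hd j, by rw [seg_len]⟩
      refine le_trans (Nat.cast_le.2 ((min_le_left _ _).trans ?_)) h4
      rw [seg_add, ← h2]
      refine g_le _ _ (seg_len _ _ _) (seg_mem _ z w h3 _ _ fun j _ => ?_)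
      have := hd (w.length + j)
      push_cast at this
      rwa [add_assoc]

end Pool.Agent.Results.MP_a1720d_lc.Computable
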